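import Pool.Agent.H242.GX.Stm

/-!
Borel's lemma with a parameter (`S_BOREL`).
-/

set_option autoImplicit false

open Set Filter Topology
open scoped ContDiff

namespace Pool.Agent.H331.GX

open Pool.Agent.H242.GX

lemma exists_bump : ∃ b : ℝ → ℝ, ContDiff ℝ ∞ b ∧ (∀ s, |s| ≤ 1 / 2 → b s = 1) ∧
    (∀ s, 1 ≤ |s| → b s = 0) := by
  obtain ⟨f, hf⟩ : ∃ f : ContDiffBump (0 : ℝ), f.rIn = 1 / 2 ∧ f.rOut = 1 :=
    ⟨⟨1 / 2, 1, by norm_num, by norm_num⟩, rfl, rfl⟩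
  refine ⟨f, f.contDiff, fun s hs => f.one_of_mem_closedBall ?_, fun s hs => f.zero_of_le_dist ?_⟩
  · rw [Metric.mem_closedBall, Real.dist_eq, sub_zero, hf.1]
    exact hs
  · rw [Real.dist_eq, sub_zero, hf.2]
    exact hs

lemma bdd (G : ℝ × ℝ → ℝ) (hG : ContDiff ℝ ∞ G)
    (hper : ∀ φ s, G (φ + 2 * Real.pi, s) = G (φ, s))
    (hsupp : ∀ φ s, 1 ≤ |s| → G (φ, s) = 0) (j : ℕ) :
    ∃ C : ℝ, 0 ≤ C ∧ ∀ x, ‖iteratedFDeriv ℝ j G x‖ ≤ C := by
  have hc : Continuous fun x => iteratedFDeriv ℝ j G x :=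
    hG.continuous_iteratedFDeriv (by exact_mod_cast le_top)
  have hK : IsCompact (Icc (0:ℝ) (2 * Real.pi) ×ˢ Icc (-1:ℝ) 1) := isCompact_Icc.prod isCompact_Icc
  obtain ⟨C, hC⟩ := hK.exists_bound_of_continuousOn hc.continuousOn
  refine ⟨max C 0, le_max_right _ _, fun x => ?_⟩
  obtain ⟨φ, s⟩ := x
  by_cases hs : |s| ≤ 1
  · have hp : Function.Periodic (fun φ : ℝ => iteratedFDeriv ℝ j G (φ, s)) (2 * Real.pi) := by
      intro φ
      have h1 : (fun z : ℝ × ℝ => G (z + (2 * Real.pi, 0))) = G := by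
        funext z
        obtain ⟨a, b⟩ := z
        rw [Prod.mk_add_mk, add_zero]
        exact hper a b
      have h2 := iteratedFDeriv_comp_add_right (𝕜 := ℝ) (f := G) j (2 * Real.pi, 0) (φ, s)
      rw [h1, Prod.mk_add_mk, add_zero] at h2
      exact h2.symm
    obtain ⟨y, hy, hy2⟩ := hp.exists_mem_Ico₀ Real.two_pi_pos φ
    have h3 : iteratedFDeriv ℝ j G (φ, s) = iteratedFDeriv ℝ j G (y, s) := hy2
    rw [h3]
    exact (hC (y, s) ⟨⟨hy.1, hy.2.le⟩, abs_le.1 hs⟩).trans (le_max_left _ _)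
  · have h1 : tsupport G ⊆ {x : ℝ × ℝ | |x.2| ≤ 1} := by
      apply closure_minimal
      · intro x hx
        by_contra h
        exact hx (hsupp x.1 x.2 (not_le.1 h).le)
      · exact isClosed_le (by fun_prop) continuous_const
    have h2 : iteratedFDeriv ℝ j G (φ, s) = 0 := by
      have h3 := support_iteratedFDeriv_subset (𝕜 := ℝ) (f := G) j
      by_contra h
      exact hs (h1 (h3 h))
    rw [h2, norm_zero]
    exact le_max_right _ _

/-- the scaling of the second coordinate -/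
noncomputable def Lsc (ε : ℝ) : ℝ × ℝ →L[ℝ] ℝ × ℝ :=
  (ContinuousLinearMap.fst ℝ ℝ ℝ).prod (ε⁻¹ • ContinuousLinearMap.snd ℝ ℝ ℝ)

lemma Lsc_apply (ε : ℝ) (x : ℝ × ℝ) : Lsc ε x = (x.1, ε⁻¹ * x.2) := rfl

lemma norm_Lsc {ε : ℝ} (h0 : 0 < ε) (h1 : ε ≤ 1) : ‖Lsc ε‖ ≤ ε⁻¹ := by
  refine ContinuousLinearMap.opNorm_le_bound _ (by positivity) fun x => ?_
  have h2 : 1 ≤ ε⁻¹ := (one_le_inv₀ h0).2 h1
  rw [Lsc_apply, Prod.norm_def]
  refine max_le ?_ ?_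
  · calc ‖x.1‖ ≤ ‖x‖ := norm_fst_le x
      _ = 1 * ‖x‖ := (one_mul _).symm
      _ ≤ ε⁻¹ * ‖x‖ := mul_le_mul_of_nonneg_right h2 (norm_nonneg _)
  · rw [norm_mul, Real.norm_of_nonneg (by positivity : (0:ℝ) ≤ ε⁻¹)]
    exact mul_le_mul_of_nonneg_left (norm_snd_le x) (by positivity)

lemma exists_eps (b : ℝ → ℝ) (hb : ContDiff ℝ ∞ b) (hb0 : ∀ s, 1 ≤ |s| → b s = 0)
    (u : ℝ → ℝ) (hu : PP u) (k : ℕ) (δ : ℝ) (hδ : 0 < δ) :
    ∃ ε : ℝ, 0 < ε ∧ ∀ n ≤ k, ∀ j < n, ∀ x : ℝ × ℝ,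
      ‖iteratedFDeriv ℝ j (fun x : ℝ × ℝ => x.2 ^ n * (u x.1 * b (x.2 / ε))) x‖ ≤ δ := by
  have hG : ∀ n : ℕ, ContDiff ℝ ∞ (fun x : ℝ × ℝ => x.2 ^ n * (u x.1 * b x.2)) := by
    intro n
    have h1 := hu.smooth
    exact (contDiff_snd.pow n).mul ((h1.comp contDiff_fst).mul (hb.comp contDiff_snd))
  have hB : ∀ n j : ℕ, ∃ C : ℝ, 0 ≤ C ∧
      ∀ x, ‖iteratedFDeriv ℝ j (fun x : ℝ × ℝ => x.2 ^ n * (u x.1 * b x.2)) x‖ ≤ C := by
    intro n j
    refine bdd _ (hG n) (fun φ s => ?_) (fun φ s hs => ?_) j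
    · simp only [hu.per]
    · simp only [hb0 s hs, mul_zero]
  choose C hC0 hC using hB
  obtain ⟨M, hM⟩ : ∃ M : ℝ, M = ∑ n ∈ Finset.range (k + 1), ∑ j ∈ Finset.range n, C n j :=
    ⟨_, rfl⟩
  have hM0 : 0 ≤ M := by
    rw [hM]
    exact Finset.sum_nonneg fun n _ => Finset.sum_nonneg fun j _ => hC0 n j
  have hCM : ∀ n ≤ k, ∀ j < n, C n j ≤ M := by
    intro n hn j hj
    rw [hM]
    refine le_trans ?_ (Finset.single_le_sum (f := fun n => ∑ j ∈ Finset.range n, C n j)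
      (fun n _ => Finset.sum_nonneg fun j _ => hC0 n j)
      (Finset.mem_range.2 (Nat.lt_succ_of_le hn)))
    exact Finset.single_le_sum (f := fun j => C n j) (fun j _ => hC0 n j) (Finset.mem_range.2 hj)
  have hpos : 0 < min 1 (δ / (M + 1)) := lt_min one_pos (div_pos hδ (by linarith))
  refine ⟨min 1 (δ / (M + 1)), hpos, fun n hn j hj x => ?_⟩
  obtain ⟨ε, hε⟩ : ∃ ε : ℝ, ε = min 1 (δ / (M + 1)) := ⟨_, rfl⟩
  rw [← hε]
  have hε0 : 0 < ε := by rw [hε]; exact hpos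
  have hε1 : ε ≤ 1 := by rw [hε]; exact min_le_left _ _
  have hε2 : ε * (M + 1) ≤ δ := by
    have : ε ≤ δ / (M + 1) := by rw [hε]; exact min_le_right _ _
    rwa [le_div_iff₀ (by positivity)] at this
  have e1 : (fun x : ℝ × ℝ => x.2 ^ n * (u x.1 * b (x.2 / ε))) =
      ε ^ n • ((fun x : ℝ × ℝ => x.2 ^ n * (u x.1 * b x.2)) ∘ (Lsc ε)) := by
    funext x
    rw [Pi.smul_apply, Function.comp_apply, Lsc_apply, smul_eq_mul]
    simp only
    rw [mul_pow, inv_pow, div_eq_inv_mul, ← mul_assoc (ε ^ n), ← mul_assoc (ε ^ n),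
      mul_inv_cancel₀ (pow_ne_zero n hε0.ne'), one_mul]
  have hcd : ContDiff ℝ j ((fun x : ℝ × ℝ => x.2 ^ n * (u x.1 * b x.2)) ∘ (Lsc ε)) :=
    ((hG n).of_le (by exact_mod_cast le_top)).comp (Lsc ε).contDiff
  rw [e1, iteratedFDeriv_const_smul_apply hcd.contDiffAt, norm_smul,
    Real.norm_of_nonneg (by positivity : (0:ℝ) ≤ ε ^ n),
    ContinuousLinearMap.iteratedFDeriv_comp_right (Lsc ε) (hG n) x (by exact_mod_cast le_top)]
  have h1 := ContinuousMultilinearMap.norm_compContinuousLinearMap_le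
    (iteratedFDeriv ℝ j (fun x : ℝ × ℝ => x.2 ^ n * (u x.1 * b x.2)) (Lsc ε x))
    (fun _ : Fin j => Lsc ε)
  rw [Finset.prod_const, Finset.card_univ, Fintype.card_fin] at h1
  have h2 : ‖Lsc ε‖ ^ j ≤ (ε⁻¹) ^ j := pow_le_pow_left₀ (norm_nonneg _) (norm_Lsc hε0 hε1) j
  have h3 : ‖iteratedFDeriv ℝ j (fun x : ℝ × ℝ => x.2 ^ n * (u x.1 * b x.2)) (Lsc ε x)‖ ≤ M :=
    (hC n j _).trans (hCM n hn j hj)
  have h4 := h1.trans (mul_le_mul h3 h2 (by positivity) hM0)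
  have h5 : ε ^ n * (M * (ε⁻¹) ^ j) ≤ ε * M := by
    obtain ⟨d, rfl⟩ : ∃ d, n = j + (d + 1) := ⟨n - j - 1, by omega⟩
    have h6 : ε ^ (j + (d + 1)) * (M * (ε⁻¹) ^ j) = ε ^ d * (ε * M) := by
      have h7 : ε ^ j * (ε⁻¹) ^ j = 1 := by
        rw [← mul_pow, mul_inv_cancel₀ hε0.ne', one_pow]
      calc ε ^ (j + (d + 1)) * (M * (ε⁻¹) ^ j) = (ε ^ j * (ε⁻¹) ^ j) * (ε ^ d * (ε * M)) := by
            rw [pow_add, pow_succ]
            ring
        _ = ε ^ d * (ε * M) := by rw [h7, one_mul]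
    rw [h6]
    have h8 : ε ^ d ≤ 1 := pow_le_one₀ hε0.le hε1
    have h9 : 0 ≤ ε * M := by positivity
    nlinarith
  calc ε ^ n * _ ≤ ε ^ n * (M * (ε⁻¹) ^ j) := mul_le_mul_of_nonneg_left h4 (by positivity)
    _ ≤ ε * M := h5
    _ ≤ δ := by nlinarith

lemma smooth_c (b : ℝ → ℝ) (hb : ContDiff ℝ ∞ b) (hb1 : ∀ s, |s| ≤ 1 / 2 → b s = 1) (ε : ℝ)
    (hε : 0 < ε) (k N : ℕ) : ContDiff ℝ ∞ (fun y : ℝ => (b (y / ε) - 1) * y ^ k / y ^ N) := by
  rw [contDiff_iff_contDiffAt]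
  intro y
  by_cases hy : y = 0
  · have h1 : (fun y : ℝ => (b (y / ε) - 1) * y ^ k / y ^ N) =ᶠ[𝓝 y] fun _ => 0 := by
      rw [hy]
      filter_upwards [Metric.ball_mem_nhds (0:ℝ) (half_pos hε)] with z hz
      rw [Metric.mem_ball, Real.dist_eq, sub_zero] at hz
      have h2 : |z / ε| ≤ 1 / 2 := by
        rw [abs_div, abs_of_pos hε, div_le_iff₀ hε]
        linarith
      rw [hb1 _ h2, sub_self, zero_mul, zero_div]
    exact contDiffAt_const.congr_of_eventuallyEq h1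
  · have h1 : ContDiff ℝ ∞ (fun y : ℝ => (b (y / ε) - 1) * y ^ k) :=
      ((hb.comp (contDiff_id.div_const ε)).sub contDiff_const).mul (contDiff_id.pow k)
    have h2 : ContDiff ℝ ∞ (fun y : ℝ => y ^ N) := contDiff_id.pow N
    exact h1.contDiffAt.div h2.contDiffAt (pow_ne_zero N hy)

lemma mul_c (b : ℝ → ℝ) (hb1 : ∀ s, |s| ≤ 1 / 2 → b s = 1) (ε : ℝ) (k N : ℕ) (y : ℝ) :
    y ^ N * ((b (y / ε) - 1) * y ^ k / y ^ N) = (b (y / ε) - 1) * y ^ k := by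
  by_cases hy : y = 0
  · have h : b (0 / ε) = 1 := hb1 _ (by rw [zero_div, abs_zero]; norm_num)
    rw [hy, h, sub_self, zero_mul, zero_div, mul_zero]
  · exact mul_div_cancel₀ _ (pow_ne_zero N hy)

/-- **GX-BOREL.** Borel's lemma with a parameter. -/
theorem gx_BOREL : S_BOREL := by
  intro u hu
  obtain ⟨b, hb, hb1, hb0⟩ := exists_bump
  have hε : ∀ k, ∃ ε : ℝ, 0 < ε ∧ ∀ n ≤ k, ∀ j < n, ∀ x : ℝ × ℝ,
      ‖iteratedFDeriv ℝ j (fun x : ℝ × ℝ => x.2 ^ n * (u k x.1 * b (x.2 / ε))) x‖ ≤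
        (1 / 2 : ℝ) ^ k :=
    fun k => exists_eps b hb hb0 (u k) (hu k) k _ (by positivity)
  choose ε hε0 hε using hε
  have hsm : ∀ n k, ContDiff ℝ ∞ (fun x : ℝ × ℝ => x.2 ^ n * (u k x.1 * b (x.2 / ε k))) := by
    intro n k
    have h1 := (hu k).smooth
    exact (contDiff_snd.pow n).mul
      ((h1.comp contDiff_fst).mul (hb.comp (contDiff_snd.div_const (ε k))))
  have htail : ∀ N, ContDiff ℝ ∞ fun x : ℝ × ℝ =>
      ∑' i, x.2 ^ i * (u (i + N) x.1 * b (x.2 / ε (i + N))) := by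
    intro N
    refine contDiff_tsum_of_eventually (v := fun _ i => (1 / 2 : ℝ) ^ (i + N))
      (fun i => hsm i (i + N)) (fun k _ => ?_) (fun k _ => ?_)
    · exact (summable_nat_add_iff N).2 summable_geometric_two
    · rw [Nat.cofinite_eq_atTop]
      filter_upwards [eventually_gt_atTop k] with i hi x
      exact hε (i + N) i (by omega) k hi x
  have hsum : ∀ x : ℝ × ℝ, Summable fun i => x.2 ^ i * (u i x.1 * b (x.2 / ε i)) := by
    intro x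
    rw [← summable_nat_add_iff 1]
    refine Summable.of_norm_bounded ((summable_nat_add_iff 1).2 summable_geometric_two) fun i => ?_
    have h1 := hε (i + 1) (i + 1) le_rfl 0 (Nat.succ_pos i) x
    rw [norm_iteratedFDeriv_zero] at h1
    exact h1
  refine ⟨fun x => ∑' i, x.2 ^ i * (u i x.1 * b (x.2 / ε i)), htail 0, fun φ y => ?_, fun N => ?_⟩
  · simp only [(hu _).per]
  · refine ⟨fun x => (∑ k ∈ Finset.range N, u k x.1 * ((b (x.2 / ε k) - 1) * x.2 ^ k / x.2 ^ N)) +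
      ∑' i, x.2 ^ i * (u (i + N) x.1 * b (x.2 / ε (i + N))), ?_, fun φ y => ?_⟩
    · refine ContDiff.add (ContDiff.sum fun k _ => ?_) (htail N)
      exact ((hu k).smooth.comp contDiff_fst).mul
        ((smooth_c b hb hb1 (ε k) (hε0 k) k N).comp contDiff_snd)
    · simp only
      rw [← (hsum (φ, y)).sum_add_tsum_nat_add N]
      simp only
      rw [mul_add, ← tsum_mul_left, ← add_assoc]
      congr 1
      · rw [Finset.mul_sum, ← Finset.sum_add_distrib]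
        refine Finset.sum_congr rfl fun k _ => ?_
        have h1 := mul_c b hb1 (ε k) k N y
        calc y ^ k * (u k φ * b (y / ε k)) = y ^ k * u k φ + u k φ * ((b (y / ε k) - 1) * y ^ k) := by
              ring
          _ = y ^ k * u k φ + u k φ * (y ^ N * ((b (y / ε k) - 1) * y ^ k / y ^ N)) := by rw [h1]
          _ = _ := by ring
      · refine tsum_congr fun i => ?_
        rw [pow_add]
        ring

end Pool.Agent.H331.GX
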